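import Pool.Agent.H94.T3.Targets
import Pool.Agent.H70.G.SUB

/-!
Theorem G4 (MP_ee74d2_an), module CHV: change of variables for the cone.
-/

set_option autoImplicit false

namespace Pool.Agent.H69.T3

open MeasureTheory Set
open scoped ENNReal NNReal RealInnerProductSpace
open Pool.Agent.H83.LS (EE jo pr)
open Pool.Agent.H81.GT (xz tz)
open Pool.Agent.H70.G.SUB (spl_eq inner_jo norm_jo_sq continuous_jo last_jo gg gg_deriv gg_inj
  norm_pt bound_supp)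
open Pool.Agent.H94.T3
open Pool.Agent.H83.G (Z E)

private theorem pr_jo {n : ℕ} (u : EE n) (c : ℝ) : pr (jo u c) = u := by
  ext i
  simp [pr, jo]

private theorem continuous_pr {n : ℕ} : Continuous (pr (n := n)) := by
  unfold pr
  refine (PiLp.continuous_toLp 2 _).comp (continuous_pi fun i => ?_)
  fun_prop

private theorem comp_cs {n : ℕ} {W : Type} [NormedAddCommGroup W] (F : EE (n + 1) → W)
    (hs : HasCompactSupport F) : HasCompactSupport (fun p : EE n × ℝ => F (jo p.1 p.2)) := by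
  obtain ⟨D, hD⟩ := (isBounded_iff_forall_norm_le.1 hs.isCompact.isBounded)
  refine HasCompactSupport.of_support_subset_isCompact
    (isCompact_closedBall (0 : EE n × ℝ) D) fun p hp => ?_
  have h2 : ‖jo p.1 p.2‖ ≤ D := hD _ (subset_tsupport _ hp)
  have h3 := norm_jo_sq p.1 p.2
  have h4 : ‖p.1‖ ≤ D := by
    refine le_trans ?_ h2
    refine (pow_le_pow_iff_left₀ (norm_nonneg _) (norm_nonneg _) two_ne_zero).1 ?_
    rw [h3]
    nlinarith [sq_nonneg p.2]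
  have h5 : |p.2| ≤ D := by
    refine le_trans ?_ h2
    refine (pow_le_pow_iff_left₀ (abs_nonneg _) (norm_nonneg _) two_ne_zero).1 ?_
    rw [h3, sq_abs]
    nlinarith [sq_nonneg ‖p.1‖]
  rw [mem_closedBall_zero_iff, Prod.norm_def]
  exact max_le h4 h5

/-- points with `‖ξ‖ + ξ_d > 0` are in the image -/
private theorem mem_image {n : ℕ} (u : EE n) (c : ℝ) (h : 0 < ‖jo u c‖ + c) :
    c ∈ gg ‖u‖ '' Ioi 0 := by
  refine ⟨‖jo u c‖ + c, h, ?_⟩
  have h1 := norm_jo_sq u c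
  have h2 : ‖u‖ ^ 2 = (‖jo u c‖ - c) * (‖jo u c‖ + c) := by
    linear_combination -h1
  unfold gg
  rw [h2, mul_div_assoc, div_self h.ne']
  ring

/-- the change of variables -/
private theorem cov {n : ℕ} {W : Type} [NormedAddCommGroup W] [NormedSpace ℝ W]
    (F : EE (n + 1) → W) (hF : Continuous F) (hs : HasCompactSupport F)
    (hp : ∀ ξ, F ξ ≠ 0 → 0 < ‖ξ‖ + ξ (Fin.last n)) :
    ∫ ξ, F ξ = ∫ u : EE n, ∫ a in Ioi (0 : ℝ),
      ((1 + ‖u‖ ^ 2 / a ^ 2) / 2) • F (jo u (gg ‖u‖ a)) := by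
  have hc : Continuous (fun p : EE n × ℝ => F (jo p.1 p.2)) := hF.comp continuous_jo
  have h1 : ∫ ξ, F ξ = ∫ p : EE n × ℝ, F (jo p.1 p.2) := by
    rw [← (Pool.Agent.H87.LS.spl_mp n).integral_comp' (g := F)]
    refine integral_congr_ae (Filter.Eventually.of_forall fun p => ?_)
    simp only
    rw [← spl_eq]
  have hint : Integrable (fun p : EE n × ℝ => F (jo p.1 p.2)) :=
    hc.integrable_of_hasCompactSupport (comp_cs F hs)
  have h2 : ∫ p : EE n × ℝ, F (jo p.1 p.2) = ∫ u : EE n, ∫ c : ℝ, F (jo u c) :=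
    integral_prod _ hint
  have h3 : ∀ u : EE n, ∫ c : ℝ, F (jo u c) = ∫ a in Ioi (0 : ℝ),
      ((1 + ‖u‖ ^ 2 / a ^ 2) / 2) • F (jo u (gg ‖u‖ a)) := by
    intro u
    have h4 : ∫ c : ℝ, F (jo u c) = ∫ c in gg ‖u‖ '' Ioi 0, F (jo u c) := by
      symm
      refine setIntegral_eq_integral_of_forall_compl_eq_zero fun c hc => ?_
      by_contra h
      have h5 := hp _ h
      rw [last_jo] at h5
      exact hc (mem_image u c h5)
    rw [h4, integral_image_eq_integral_abs_deriv_smul measurableSet_Ioi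
      (fun a ha => (gg_deriv (B := ‖u‖) ha).hasDerivWithinAt) (gg_inj ‖u‖)]
    refine setIntegral_congr_fun measurableSet_Ioi fun a ha => ?_
    have h6 : 0 ≤ (1 + ‖u‖ ^ 2 / a ^ 2) / 2 := by positivity
    rw [abs_of_nonneg h6]
  rw [h1, h2]
  exact integral_congr_ae (Filter.Eventually.of_forall h3)

/-- the amplitude in the Euclidean coordinates -/
private noncomputable def bb {m : ℕ} (g : ℝ × E m → ℂ) (ξ : EE (m + 1)) : ℂ :=
  g (‖ξ‖ + ξ (Fin.last m), pr ξ) *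
    (((‖ξ‖ + ξ (Fin.last m)) / max ‖ξ‖ (1 / 8) : ℝ) : ℂ)

private theorem bb_cont {m : ℕ} {g : ℝ × E m → ℂ} (hg : Continuous g) : Continuous (bb g) := by
  have h1 : Continuous fun ξ : EE (m + 1) => ‖ξ‖ + ξ (Fin.last m) := by fun_prop
  have h2 : Continuous fun ξ : EE (m + 1) => max ‖ξ‖ (1 / 8 : ℝ) :=
    continuous_norm.max continuous_const
  have h3 : Continuous fun ξ : EE (m + 1) => (‖ξ‖ + ξ (Fin.last m)) / max ‖ξ‖ (1 / 8) :=
    h1.div h2 fun ξ => (lt_of_lt_of_le (by norm_num) (le_max_right ‖ξ‖ (1 / 8 : ℝ))).ne'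
  have h4 : Continuous fun ξ : EE (m + 1) => g (‖ξ‖ + ξ (Fin.last m), pr ξ) :=
    hg.comp (h1.prodMk continuous_pr)
  exact h4.mul (Complex.continuous_ofReal.comp h3)

private theorem bb_supp {m : ℕ} {g : ℝ × E m → ℂ} {ξ : EE (m + 1)} (h : bb g ξ ≠ 0) :
    g (‖ξ‖ + ξ (Fin.last m), pr ξ) ≠ 0 := fun h0 => h (by
  unfold bb
  rw [h0, zero_mul])

private theorem norm_sq_pr {m : ℕ} (ξ : EE (m + 1)) :
    ‖ξ‖ ^ 2 = ‖pr ξ‖ ^ 2 + ξ (Fin.last m) ^ 2 := by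
  have h1 : jo (pr ξ) (ξ (Fin.last m)) = ξ := by
    ext i
    refine Fin.lastCases ?_ (fun i => ?_) i
    · simp [jo]
    · simp [jo, pr]
  have h2 := norm_jo_sq (pr ξ) (ξ (Fin.last m))
  rw [h1] at h2
  exact h2

private theorem bb_cs {m : ℕ} {D : ℝ} {g : ℝ × E m → ℂ}
    (hs : ∀ ζ, g ζ ≠ 0 → 1 / 4 ≤ ζ.1 ∧ ζ.1 ≤ 8 ∧ ‖ζ.2‖ ≤ D) : HasCompactSupport (bb g) := by
  refine HasCompactSupport.of_support_subset_isCompact
    (isCompact_closedBall (0 : EE (m + 1)) (4 + 2 * D ^ 2)) fun ξ hξ => ?_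
  obtain ⟨h1, h2, h3⟩ := hs _ (bb_supp hξ)
  simp only at h1 h2 h3
  rw [mem_closedBall_zero_iff]
  have h4 := norm_sq_pr ξ
  have h5 : ‖pr ξ‖ ^ 2 ≤ D ^ 2 := pow_le_pow_left₀ (norm_nonneg _) h3 2
  have h6 : (‖ξ‖ - ξ (Fin.last m)) * (‖ξ‖ + ξ (Fin.last m)) ≤ D ^ 2 := by
    have : (‖ξ‖ - ξ (Fin.last m)) * (‖ξ‖ + ξ (Fin.last m)) = ‖pr ξ‖ ^ 2 := by
      linear_combination h4
    rw [this]
    exact h5
  have h7 : |ξ (Fin.last m)| ≤ ‖ξ‖ := by
    rw [← Real.norm_eq_abs]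
    exact PiLp.norm_apply_le ξ (Fin.last m)
  have h8 : 0 ≤ ‖ξ‖ - ξ (Fin.last m) := by
    have := le_abs_self (ξ (Fin.last m))
    linarith
  have h9 : (‖ξ‖ - ξ (Fin.last m)) * (1 / 4) ≤ D ^ 2 :=
    (mul_le_mul_of_nonneg_left h1 h8).trans h6
  linarith

/-- the values of `bb` -/
private theorem bb_val {m : ℕ} {D : ℝ} {g : ℝ × E m → ℂ}
    (hs : ∀ ζ, g ζ ≠ 0 → 1 / 4 ≤ ζ.1 ∧ ζ.1 ≤ 8 ∧ ‖ζ.2‖ ≤ D) (u : EE m) {a : ℝ} (ha : 0 < a) :
    bb g (jo u (gg ‖u‖ a)) = g (a, u) * ((a / ((a + ‖u‖ ^ 2 / a) / 2) : ℝ) : ℂ) := by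
  have h1 := norm_pt u ha
  have h2 : ‖jo u (gg ‖u‖ a)‖ + (jo u (gg ‖u‖ a)) (Fin.last m) = a := by
    rw [h1, last_jo]
    unfold gg
    ring
  unfold bb
  rw [h2, pr_jo]
  by_cases h0 : g (a, u) = 0
  · rw [h0, zero_mul, zero_mul]
  · have h3 := (hs _ h0).1
    simp only at h3
    have h4 : 0 ≤ ‖u‖ ^ 2 / a := by positivity
    rw [h1, max_eq_left (by linarith)]

private theorem coef {B a : ℝ} (ha : 0 < a) :
    (1 + B ^ 2 / a ^ 2) / 2 * (a / ((a + B ^ 2 / a) / 2)) = 1 := by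
  have h1 : 0 < a ^ 2 + B ^ 2 := by positivity
  have h2 : (a + B ^ 2 / a) ≠ 0 := by positivity
  field_simp

theorem pf_CHV : T_CHV := by
  intro m D g hg hs
  have hgc : HasCompactSupport g := by
    refine HasCompactSupport.of_support_subset_isCompact
      (isCompact_closedBall (0 : ℝ × E m) (max 8 D)) fun ζ hζ => ?_
    obtain ⟨h1, h2, h3⟩ := hs ζ hζ
    rw [mem_closedBall_zero_iff, Prod.norm_def]
    refine max_le_max ?_ h3
    rw [Real.norm_eq_abs, abs_of_nonneg (by linarith)]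
    exact h2
  have hgi : Integrable g := hg.integrable_of_hasCompactSupport hgc
  have hg2c : Continuous (fun ζ => ‖g ζ‖ ^ 2) := hg.norm.pow 2
  have hg2s : HasCompactSupport (fun ζ => ‖g ζ‖ ^ 2) :=
    hgc.comp_left (g := fun w : ℂ => ‖w‖ ^ 2) (by simp)
  have hg2 : Integrable (fun ζ => ‖g ζ‖ ^ 2) := hg2c.integrable_of_hasCompactSupport hg2s
  have hpos : ∀ ξ, bb g ξ ≠ 0 → 0 < ‖ξ‖ + ξ (Fin.last m) := fun ξ hξ =>
    lt_of_lt_of_le (by norm_num) (hs _ (bb_supp hξ)).1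
  have hneg : ∀ (a : ℝ) (u : E m), a ∉ Ioi (0 : ℝ) → g (a, u) = 0 := by
    intro a u ha
    by_contra h
    have h1 := (hs _ h).1
    simp only at h1
    exact ha (lt_of_lt_of_le (by norm_num) h1)
  refine ⟨bb g, bb_cont hg, fun ξ hξ => bb_supp hξ, ?_, ?_⟩
  · intro z
    set F : EE (m + 1) → ℂ := fun ξ =>
      Pool.Agent.H82.KL.e (inner ℝ (xz z) ξ + tz z * ‖ξ‖) * bb g ξ with hF
    have hec : Continuous Pool.Agent.H82.KL.e := by
      unfold Pool.Agent.H82.KL.e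
      fun_prop
    have hFc : Continuous F := by
      have h1 : Continuous fun ξ : EE (m + 1) => inner ℝ (xz z) ξ + tz z * ‖ξ‖ := by fun_prop
      exact (hec.comp h1).mul (bb_cont hg)
    have hFs : HasCompactSupport F := (bb_cs hs).mul_left
    have hFp : ∀ ξ, F ξ ≠ 0 → 0 < ‖ξ‖ + ξ (Fin.last m) := fun ξ hξ =>
      hpos ξ (right_ne_zero_of_mul hξ)
    have h1 := cov F hFc hFs hFp
    set K : ℝ × E m → ℂ := fun ζ => Pool.Agent.H83.G.e (z.1 * ζ.1 + ⟪z.2.1, ζ.2⟫ +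
      z.2.2 * (‖ζ.2‖ ^ 2 / ζ.1)) * g ζ with hK
    have h2 : ∀ (u : EE m), ∀ a ∈ Ioi (0 : ℝ),
        ((1 + ‖u‖ ^ 2 / a ^ 2) / 2) • F (jo u (gg ‖u‖ a)) = K (a, u) := by
      intro u a ha
      have ha' : 0 < a := ha
      have h3 : inner ℝ (xz z) (jo u (gg ‖u‖ a)) + tz z * ‖jo u (gg ‖u‖ a)‖ =
          z.1 * a + ⟪z.2.1, u⟫ + z.2.2 * (‖u‖ ^ 2 / a) := by
        rw [norm_pt u ha']
        unfold xz tz gg
        rw [inner_jo]
        ring
      have h4 := coef (B := ‖u‖) ha'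
      rw [hF, hK]
      simp only
      rw [h3, bb_val hs u ha', Complex.real_smul]
      have h5 : (((1 + ‖u‖ ^ 2 / a ^ 2) / 2 : ℝ) : ℂ) *
          ((a / ((a + ‖u‖ ^ 2 / a) / 2) : ℝ) : ℂ) = 1 := by
        rw [← Complex.ofReal_mul, h4, Complex.ofReal_one]
      have h6 : Pool.Agent.H82.KL.e (z.1 * a + ⟪z.2.1, u⟫ + z.2.2 * (‖u‖ ^ 2 / a)) =
          Pool.Agent.H83.G.e (z.1 * a + ⟪z.2.1, u⟫ + z.2.2 * (‖u‖ ^ 2 / a)) := rfl
      rw [h6]
      linear_combination (Pool.Agent.H83.G.e (z.1 * a + ⟪z.2.1, u⟫ + z.2.2 * (‖u‖ ^ 2 / a)) *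
        g (a, u)) * h5
    have h7 : ∀ u : EE m, ∫ a in Ioi (0 : ℝ),
        ((1 + ‖u‖ ^ 2 / a ^ 2) / 2) • F (jo u (gg ‖u‖ a)) = ∫ a, K (a, u) := by
      intro u
      rw [setIntegral_congr_fun measurableSet_Ioi (h2 u)]
      refine setIntegral_eq_integral_of_forall_compl_eq_zero fun a ha => ?_
      rw [hK]
      simp only
      rw [hneg a u ha, mul_zero]
    have hKm : Measurable (fun ζ : ℝ × E m => Pool.Agent.H83.G.e (z.1 * ζ.1 + ⟪z.2.1, ζ.2⟫ +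
        z.2.2 * (‖ζ.2‖ ^ 2 / ζ.1))) := by
      have hm1 : Measurable (fun ζ : ℝ × E m => z.1 * ζ.1 + ⟪z.2.1, ζ.2⟫) := by
        have : Continuous (fun ζ : ℝ × E m => z.1 * ζ.1 + ⟪z.2.1, ζ.2⟫) := by fun_prop
        exact this.measurable
      have hm2 : Measurable (fun ζ : ℝ × E m => ‖ζ.2‖ ^ 2) := by
        have : Continuous (fun ζ : ℝ × E m => ‖ζ.2‖ ^ 2) := by fun_prop
        exact this.measurable
      have hm3 : Measurable (fun ζ : ℝ × E m => z.1 * ζ.1 + ⟪z.2.1, ζ.2⟫ +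
          z.2.2 * (‖ζ.2‖ ^ 2 / ζ.1)) := hm1.add ((hm2.div measurable_fst).const_mul _)
      have hec' : Measurable Pool.Agent.H83.G.e := hec.measurable
      exact hec'.comp hm3
    have hKi : Integrable K := by
      refine hgi.mono (hKm.aestronglyMeasurable.mul hg.aestronglyMeasurable) ?_
      refine Filter.Eventually.of_forall fun ζ => ?_
      rw [hK]
      simp only
      rw [norm_mul]
      have h8 : ∀ x : ℝ, ‖Pool.Agent.H83.G.e x‖ = 1 := fun x => by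
        unfold Pool.Agent.H83.G.e
        exact Complex.norm_exp_ofReal_mul_I _
      rw [h8, one_mul]
    have h9 : ∫ ζ, K ζ = ∫ u : E m, ∫ a : ℝ, K (a, u) := integral_prod_symm _ hKi
    calc Pool.Agent.H82.KL.U (bb g) (xz z, tz z) = ∫ ξ, F ξ := rfl
      _ = ∫ u : E m, ∫ a : ℝ, K (a, u) := by
          rw [h1]
          exact integral_congr_ae (Filter.Eventually.of_forall h7)
      _ = ∫ ζ, K ζ := h9.symm
      _ = V g z := rfl
  · set F : EE (m + 1) → ℝ := fun ξ => ‖bb g ξ‖ ^ 2 with hF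
    have hFc : Continuous F := (bb_cont hg).norm.pow 2
    have hFs : HasCompactSupport F :=
      (bb_cs hs).comp_left (g := fun w : ℂ => ‖w‖ ^ 2) (by simp)
    have hFp : ∀ ξ, F ξ ≠ 0 → 0 < ‖ξ‖ + ξ (Fin.last m) := fun ξ hξ =>
      hpos ξ (fun h0 => hξ (by rw [hF]; simp only; rw [h0, norm_zero]; norm_num))
    have h1 := cov F hFc hFs hFp
    set K : ℝ × E m → ℝ := fun ζ => ‖g ζ‖ ^ 2 * (ζ.1 / ((ζ.1 + ‖ζ.2‖ ^ 2 / ζ.1) / 2)) with hK
    have h2 : ∀ (u : EE m), ∀ a ∈ Ioi (0 : ℝ),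
        ((1 + ‖u‖ ^ 2 / a ^ 2) / 2) • F (jo u (gg ‖u‖ a)) = K (a, u) := by
      intro u a ha
      have ha' : 0 < a := ha
      have h4 := coef (B := ‖u‖) ha'
      have h5 : 0 ≤ a / ((a + ‖u‖ ^ 2 / a) / 2) := by positivity
      rw [hF, hK]
      simp only
      rw [bb_val hs u ha', norm_mul, Complex.norm_real, Real.norm_eq_abs, abs_of_nonneg h5,
        smul_eq_mul]
      linear_combination (‖g (a, u)‖ ^ 2 * (a / ((a + ‖u‖ ^ 2 / a) / 2))) * h4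
    have h7 : ∀ u : EE m, ∫ a in Ioi (0 : ℝ),
        ((1 + ‖u‖ ^ 2 / a ^ 2) / 2) • F (jo u (gg ‖u‖ a)) = ∫ a, K (a, u) := by
      intro u
      rw [setIntegral_congr_fun measurableSet_Ioi (h2 u)]
      refine setIntegral_eq_integral_of_forall_compl_eq_zero fun a ha => ?_
      rw [hK]
      simp only
      rw [hneg a u ha, norm_zero]
      norm_num
    have hm2 : Measurable (fun ζ : ℝ × E m => ‖ζ.2‖ ^ 2) := by
      have : Continuous (fun ζ : ℝ × E m => ‖ζ.2‖ ^ 2) := by fun_prop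
      exact this.measurable
    have hKm : Measurable K := hg2c.measurable.mul
      (measurable_fst.div ((measurable_fst.add (hm2.div measurable_fst)).div_const 2))
    have hKb : ∀ ζ, 0 ≤ K ζ ∧ K ζ ≤ 2 * ‖g ζ‖ ^ 2 := by
      intro ζ
      by_cases h0 : g ζ = 0
      · rw [hK]
        simp only
        rw [h0, norm_zero]
        norm_num
      · have h3 := (hs ζ h0).1
        have ha : 0 < ζ.1 := lt_of_lt_of_le (by norm_num) h3
        have h4 : 0 ≤ ‖ζ.2‖ ^ 2 / ζ.1 := by positivity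
        have h5 : ζ.1 / ((ζ.1 + ‖ζ.2‖ ^ 2 / ζ.1) / 2) ≤ 2 := by
          rw [div_le_iff₀ (by positivity)]
          linarith
        refine ⟨by positivity, ?_⟩
        calc K ζ ≤ ‖g ζ‖ ^ 2 * 2 := mul_le_mul_of_nonneg_left h5 (by positivity)
          _ = 2 * ‖g ζ‖ ^ 2 := mul_comm _ _
    have hg3 : Integrable (fun ζ => 2 * ‖g ζ‖ ^ 2) := hg2.const_mul 2
    have hKi : Integrable K := by
      refine hg3.mono' hKm.aestronglyMeasurable (Filter.Eventually.of_forall fun ζ => ?_)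
      rw [Real.norm_eq_abs, abs_of_nonneg (hKb ζ).1]
      exact (hKb ζ).2
    have h9 : ∫ ζ, K ζ = ∫ u : E m, ∫ a : ℝ, K (a, u) := integral_prod_symm _ hKi
    calc ∫ ξ, ‖bb g ξ‖ ^ 2 = ∫ u : E m, ∫ a : ℝ, K (a, u) := by
          rw [show (∫ ξ, ‖bb g ξ‖ ^ 2) = ∫ ξ, F ξ from rfl, h1]
          exact integral_congr_ae (Filter.Eventually.of_forall h7)
      _ = ∫ ζ, K ζ := h9.symm
      _ ≤ ∫ ζ, 2 * ‖g ζ‖ ^ 2 := integral_mono hKi hg3 fun ζ => (hKb ζ).2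
      _ = 2 * ∫ ζ, ‖g ζ‖ ^ 2 := integral_const_mul _ _

end Pool.Agent.H69.T3
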